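import Pool.Agent.Y933.KI.General

/-!
# The exponent pair bound for almost all translates of every admissible function
-/

set_option autoImplicit false

namespace Pool.Agent.Results.MP_493793_nt.AlmostAllTranslates

open MeasureTheory

/-- Let `c j > 0`. There is `K` such that for all real `2 ≤ N ≤ F`, every smooth `f` on `[N, 2N]` with
`|f^(j)| ≥ c j F / N^j` for all `j`, every real sequence `r`, all `0 ≤ a ≤ b` and `V > 0`, the set of the
translations `u` in `[a, b]` for which some sum of `e(f(n + u) + r n)` over an interval `N1 ≤ n ≤ N2` with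
`N ≤ N1` and `N2 + u ≤ 2N` is greater than `N^(1/2) V` has measure at most
`K (1 + log N)^3 ((b - a) + N^2 / F) / V^2`. -/
theorem result : ∀ c : ℕ → ℝ, (∀ j, 0 < c j) →
    ∃ K : ℝ, ∀ N F : ℝ, ∀ f : ℝ → ℝ, 2 ≤ N → N ≤ F →
      ContDiffOn ℝ (⊤ : ℕ∞) f (Set.Icc N (2 * N)) →
      (∀ j : ℕ, ∀ x ∈ Set.Icc N (2 * N),
        c j * F / N ^ j ≤ |iteratedDerivWithin j f (Set.Icc N (2 * N)) x|) →
      ∀ (r : ℕ → ℝ) (a b V : ℝ), 0 ≤ a → a ≤ b → 0 < V →
        volume {u : ℝ | u ∈ Set.Icc a b ∧ ∃ N1 N2 : ℕ, N ≤ N1 ∧ (N2 : ℝ) + u ≤ 2 * N ∧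
          N ^ (1 / 2 : ℝ) * V < ‖∑ n ∈ Finset.Icc N1 N2,
            Complex.exp (2 * (Real.pi : ℂ) * Complex.I * ((f ((n : ℝ) + u) + r n : ℝ) : ℂ))‖} ≤
        ENNReal.ofReal (K * (1 + Real.log N) ^ 3 * ((b - a) + N ^ 2 / F) / V ^ 2) := by
  intro c hc
  exact Pool.Agent.Y933.KI.general c hc

end Pool.Agent.Results.MP_493793_nt.AlmostAllTranslates
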