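import Pool.Agent.Y933.KI.Final

/-!
# The exponent pair bound for almost all translates of functions close to a power function
-/

set_option autoImplicit false

namespace Pool.Agent.Results.MP_493793_nt.NearPowerFunctions

open MeasureTheory

/-- Let `ε > 0` and let `B`, `d` be natural numbers. There are `A`, `C`, `P` such that for every real `α`
which is not a positive integer there are `c0 > 0` and `K` with the following property. Let `N ≥ 1` be an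
integer and `T N^α ≥ N^A`; let `f = φ 0` have on `[N, 2N + 1]` derivatives `φ 1`, `φ 2`, ..., `φ (P + 1)`
which are close to those of the function with derivative `T x^(α - 1)`, up to the factor `c0 / N^C`; let `g`
have the derivative `x^(α - 1)` for `x > 0`. Then for all `u` in `[0, 1]` outside a set of measure at most
`K / N^B` all the sums of `e(f(n + u) + t g(n + u) + Q(n))` over `N1 ≤ n ≤ N2`, with `N ≤ N1 ≤ N2 ≤ 2N`,
`t ≥ 0`, `t N^α ≤ N^B` and `Q` a real polynomial of degree at most `d`, are at most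
`(N2 - N1 + 1)^(1/2) N^ε`. -/
theorem result : ∀ ε : ℝ, 0 < ε → ∀ B d : ℕ, ∃ A C P : ℕ, ∀ α : ℝ, (∀ m : ℕ, α ≠ m + 1) →
    ∃ c0 K : ℝ, 0 < c0 ∧ ∀ N : ℕ, 1 ≤ N → ∀ T : ℝ, (N : ℝ) ^ A ≤ T * (N : ℝ) ^ α →
      ∀ φ : ℕ → ℝ → ℝ,
      (∀ i ≤ P, ∀ x ∈ Set.Icc (N : ℝ) (2 * N + 1), HasDerivAt (φ i) (φ (i + 1) x) x) →
      (∀ p ≤ P, ∀ x ∈ Set.Icc (N : ℝ) (2 * N + 1),
        |φ (p + 1) x - T * (∏ i ∈ Finset.range p, (α - 1 - i)) * x ^ (α - 1 - p)| ≤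
          c0 / (N : ℝ) ^ C * (T * x ^ (α - 1 - p))) →
      ∀ g : ℝ → ℝ, (∀ x : ℝ, 0 < x → HasDerivAt g (x ^ (α - 1)) x) →
      volume {u : ℝ | u ∈ Set.Icc (0 : ℝ) 1 ∧ ∃ t : ℝ, 0 ≤ t ∧ t * (N : ℝ) ^ α ≤ (N : ℝ) ^ B ∧
        ∃ Q : Polynomial ℝ, Q.natDegree ≤ d ∧ ∃ N1 N2 : ℕ, N ≤ N1 ∧ N1 ≤ N2 ∧ N2 ≤ 2 * N ∧
        ((N2 : ℝ) - N1 + 1) ^ (1 / 2 : ℝ) * (N : ℝ) ^ ε < ‖∑ n ∈ Finset.Icc N1 N2,
          Complex.exp (2 * (Real.pi : ℂ) * Complex.I *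
            ((φ 0 ((n : ℝ) + u) + t * g ((n : ℝ) + u) + Q.eval (n : ℝ) : ℝ) : ℂ))‖} ≤
      ENNReal.ofReal (K / (N : ℝ) ^ B) := by
  intro ε hε B d
  exact Pool.Agent.Y933.KI.final2 ε hε B d

end Pool.Agent.Results.MP_493793_nt.NearPowerFunctions
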